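import Pool.Agent.WAP.StmtsP2

/-!
# Squad WAP, row EVN (helper19): parity of the class
-/

set_option autoImplicit false

namespace Pool.Agent.WAP.H19

open Pool.Agent.WAP Pool.Agent.WAP.P2 Classical

/-- **EVN** -/
theorem evn : EvnStmt := by
  intro F _ _ v hv
  constructor
  · rintro t ⟨h0, h1, hv0, hv1⟩
    have ht1 : t - 1 ≠ 0 := sub_ne_zero.2 h1
    obtain ⟨h2, h3⟩ := hv.add_lt (t - 1) 2 ht1 (Or.inr (by rw [hv1, hv.two]; norm_num))
    have h4 : t - 1 + 2 = t + 1 := by ring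
    rw [h4] at h2 h3
    have h5 : cub t = t * (t - 1) * (t + 1) := by
      unfold cub
      ring
    have h6 : t * (t - 1) ≠ 0 := mul_ne_zero h0 ht1
    refine ⟨by rw [h5]; exact mul_ne_zero h6 h2, ?_⟩
    rw [h5, hv.mul _ _ h6 h2, hv.mul _ _ h0 ht1, hv0, hv1, h3, hv1]
    norm_num
  · rintro z ⟨hz, hz0⟩
    have h1 : cub z.1 * cub z.2.1 ≠ 0 := by
      rw [← hz]
      exact pow_ne_zero 2 hz0
    have h2 := congrArg v hz
    rw [hv.pow _ hz0 2, hv.mul _ _ (left_ne_zero_of_mul h1) (right_ne_zero_of_mul h1)] at h2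
    rw [← h2]
    exact ⟨v z.2.2, by push_cast; ring⟩

end Pool.Agent.WAP.H19
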